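import Mathlib

/-! Permutations avoiding a shaded mesh pattern on 132: the statistic on lists. -/

set_option autoImplicit false

namespace Pool.Agent.Q285.Mesh132

/-- number of places where the current maximum `M` is followed by `M + 2, M + 1` -/
def oL : ℕ → List ℕ → ℕ
  | _, [] => 0
  | M, c :: l => (if c = M + 2 ∧ l.head? = some (M + 1) then 1 else 0) + oL (max M c) l

/-- the statistic of a list -/
def occ : List ℕ → ℕ
  | [] => 0
  | c :: l => oL c l

theorem oL_shift (M : ℕ) (l : List ℕ) : oL (M + 1) (l.map Nat.succ) = oL M l := by
  induction l generalizing M with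
  | nil => rfl
  | cons c l ih =>
    simp only [List.map_cons, oL]
    have h1 : max (M + 1) c.succ = max M c + 1 := by
      simp only [Nat.succ_eq_add_one]; omega
    rw [h1, ih]
    congr 1
    have h2 : ((l.map Nat.succ).head? = some (M + 1 + 1)) ↔ (l.head? = some (M + 1)) := by
      cases l with
      | nil => simp
      | cons a l => simp
    have h3 : (c.succ = M + 1 + 2) ↔ (c = M + 2) := by simp only [Nat.succ_eq_add_one]; omega
    simp only [h2, h3]

theorem occ_shift (l : List ℕ) : occ (l.map Nat.succ) = occ l := by
  cases l with
  | nil => rfl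
  | cons c l => exact oL_shift c l

theorem oL_zero (M : ℕ) (l : List ℕ) : oL M (0 :: l) = oL M l := by
  simp [oL]

/-- binomial coefficients as integers -/
def bb (o k : ℕ) : ℤ := (o.choose k : ℤ)

theorem bb_zero (o : ℕ) : bb o 0 = 1 := by simp [bb]

theorem bb_succ (o k : ℕ) : bb (1 + o) (k + 1) = bb o k + bb o (k + 1) := by
  unfold bb
  rw [Nat.add_comm, Nat.choose_succ_succ]
  push_cast
  ring

theorem bb_zero_succ (k : ℕ) : bb 0 (k + 1) = 0 := by simp [bb]

/-- the insertions of `0` at all places but the first -/
def tl : List ℕ → List (List ℕ)
  | [] => []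
  | z :: zs => (zs.permutations'Aux 0).map (List.cons z)

theorem aux_eq (ys : List ℕ) : ys.permutations'Aux 0 = (0 :: ys) :: tl ys := by
  cases ys <;> rfl

theorem head_tl {ys l : List ℕ} (h : l ∈ tl ys) : l.head? = ys.head? := by
  cases ys with
  | nil => simp [tl] at h
  | cons z zs =>
    simp only [tl, List.mem_map] at h
    obtain ⟨l', -, rfl⟩ := h
    rfl

/-- insertion of `0` at all places behind a nonempty prefix of maximum `M` -/
theorem ins_sum (L : List ℕ) (M k : ℕ) :
    ((L.permutations'Aux 0).map (fun l => bb (oL M l) k)).sum = ((L.length : ℤ) + 1 - k) * bb (oL M L) k := by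
  induction L generalizing M k with
  | nil =>
    rcases k with _ | k
    · simp [bb, oL]
    · simp [bb, oL]
  | cons y ys ih =>
    have htl : ∀ k, ((tl ys).map (fun l => bb (oL (max M y) l) k)).sum =
        ((ys.length : ℤ) - k) * bb (oL (max M y) ys) k := by
      intro k
      have h := ih (max M y) k
      rw [aux_eq, List.map_cons, List.sum_cons, oL_zero] at h
      linear_combination h
    rw [aux_eq, List.map_cons, List.sum_cons, oL_zero]
    have h0 : ((tl (y :: ys)).map (fun l => bb (oL M l) k)).sum =
        bb (oL (max M y) ys) k + ((tl ys).map (fun l => bb (oL M (y :: l)) k)).sum := by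
      show (((ys.permutations'Aux 0).map (List.cons y)).map (fun l => bb (oL M l) k)).sum = _
      rw [List.map_map, aux_eq, List.map_cons, List.sum_cons]
      congr 1
      simp [oL]
    rw [h0]
    by_cases hd : y = M + 2 ∧ ys.head? = some (M + 1)
    · have h1 : oL M (y :: ys) = 1 + oL (max M y) ys := by
        simp only [oL, hd, and_self, if_true]
      have h2 : ((tl ys).map (fun l => bb (oL M (y :: l)) k)).sum =
          ((tl ys).map (fun l => bb (1 + oL (max M y) l) k)).sum := by
        congr 1
        refine List.map_congr_left fun l hl => ?_
        have : oL M (y :: l) = 1 + oL (max M y) l := by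
          simp only [oL, head_tl hl, hd, and_self, if_true]
        rw [this]
      rw [h2, h1]
      rcases k with _ | k
      · have h3 := htl 0
        simp only [bb_zero] at h3 ⊢
        rw [h3]
        push_cast [List.length_cons]
        ring
      · simp only [bb_succ]
        rw [List.sum_map_add, htl k, htl (k + 1)]
        push_cast [List.length_cons]
        ring
    · have h1 : oL M (y :: ys) = oL (max M y) ys := by
        simp only [oL, hd, if_false, Nat.zero_add]
      have h2 : ((tl ys).map (fun l => bb (oL M (y :: l)) k)).sum =
          ((tl ys).map (fun l => bb (oL (max M y) l) k)).sum := by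
        congr 1
        refine List.map_congr_left fun l hl => ?_
        have : oL M (y :: l) = oL (max M y) l := by
          simp only [oL, head_tl hl, hd, if_false, Nat.zero_add]
        rw [this]
      rw [h2, h1, htl k]
      push_cast [List.length_cons]
      ring

/-- all permutations of `0, …, n - 1` as lists -/
def P (n : ℕ) : List (List ℕ) := (List.range n).permutations'

theorem P_succ (n : ℕ) : P (n + 1) = (P n).flatMap fun l => (l.map Nat.succ).permutations'Aux 0 := by
  unfold P
  rw [List.range_succ_eq_map]
  show ((List.map Nat.succ (List.range n)).permutations'.flatMap (List.permutations'Aux 0)) = _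
  rw [← List.map_permutations', List.flatMap_map]

theorem sum_flatMap' {α : Type*} (l : List α) (F : α → List ℤ) :
    (l.flatMap F).sum = (l.map fun a => (F a).sum).sum := by
  induction l with
  | nil => simp
  | cons a l ih => rw [List.flatMap_cons, List.sum_append, List.map_cons, List.sum_cons, ih]

theorem sum_P_succ (n : ℕ) (φ : List ℕ → ℤ) : ((P (n + 1)).map φ).sum =
    ((P n).map fun l => (((l.map Nat.succ).permutations'Aux 0).map φ).sum).sum := by
  rw [P_succ, List.map_flatMap, sum_flatMap']

theorem length_P {n : ℕ} {l : List ℕ} (h : l ∈ P n) : l.length = n := by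
  unfold P at h
  rw [List.mem_permutations'] at h
  rw [h.length_eq, List.length_range]

/-- binomial moments of the statistic -/
def f (n k : ℕ) : ℤ := ((P n).map fun l => bb (occ l) k).sum

/-- the same for the permutations of length `n + 1` with first entry `0` -/
def g (n k : ℕ) : ℤ := ((P n).map fun l => bb (oL 0 (l.map Nat.succ)) k).sum

/-- the same for the permutations with first entries `1, 0` -/
def h (n k : ℕ) : ℤ := ((P n).map fun l => if l.take 2 = [1, 0] then bb (occ l) k else 0).sum

theorem f_succ (n k : ℕ) : f (n + 1) k = g n k + ((n : ℤ) - k) * f n k := by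
  unfold f g
  rw [sum_P_succ, ← List.sum_map_mul_left, ← List.sum_map_add]
  congr 1
  refine List.map_congr_left fun l hl => ?_
  have hlen := length_P hl
  rw [aux_eq, List.map_cons, List.sum_cons]
  congr 1
  cases l with
  | nil =>
    simp only [List.length_nil] at hlen
    subst hlen
    rcases k with _ | k
    · simp [tl]
    · simp [tl, bb, occ]
  | cons c l =>
    simp only [List.map_cons, tl, List.map_map]
    show ((List.map (fun l' => bb (oL c.succ l') k) (List.permutations'Aux 0 (List.map Nat.succ l)))).sum = _
    rw [ins_sum]
    have h1 : oL c.succ (List.map Nat.succ l) = oL c l := oL_shift c l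
    rw [h1, List.length_map]
    simp only [List.length_cons] at hlen
    rw [← hlen]
    push_cast
    simp only [occ]

theorem oL_first (l : List ℕ) : oL 0 (l.map Nat.succ) = (if l.take 2 = [1, 0] then 1 else 0) + occ l := by
  cases l with
  | nil => rfl
  | cons c l =>
    simp only [List.map_cons, oL, occ]
    have h1 : max 0 c.succ = c + 1 := by simp
    rw [h1, oL_shift]
    congr 1
    cases l with
    | nil => simp
    | cons a l =>
      simp only [List.map_cons, List.head?_cons, Option.some.injEq, List.take_succ_cons, List.take_zero,
        List.cons.injEq, and_true, Nat.succ_eq_add_one]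
      have h2 : (c + 1 = 0 + 2 ∧ a + 1 = 0 + 1) ↔ (c = 1 ∧ a = 0) := by omega
      simp only [h2]

theorem g_zero (n : ℕ) : g n 0 = f n 0 := by
  unfold g f
  simp only [bb_zero]

theorem g_succ (n k : ℕ) : g n (k + 1) = f n (k + 1) + h n k := by
  unfold g f h
  rw [← List.sum_map_add]
  congr 1
  refine List.map_congr_left fun l _ => ?_
  rw [oL_first]
  split_ifs with hd
  · rw [bb_succ]; ring
  · simp

theorem h_zero (k : ℕ) : h 0 k = 0 := by
  simp [h, P]

theorem h_one (k : ℕ) : h 1 k = 0 := by
  simp [h, P, List.range_succ]

theorem h_succ (n k : ℕ) : h (n + 2) k = g n k := by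
  unfold h
  rw [sum_P_succ]
  have h1 : ((P (n + 1)).map fun l => (((l.map Nat.succ).permutations'Aux 0).map
      fun l => if l.take 2 = [1, 0] then bb (occ l) k else 0).sum).sum =
      ((P (n + 1)).map fun l => if l.head? = some 0 then bb (oL 0 l.tail) k else 0).sum := by
    congr 1
    refine List.map_congr_left fun l hl => ?_
    have hlen := length_P hl
    obtain ⟨c, r, rfl⟩ : ∃ c r, l = c :: r := by
      cases l with
      | nil => simp at hlen
      | cons c r => exact ⟨c, r, rfl⟩
    rw [aux_eq, List.map_cons, List.sum_cons]
    have h2 : (0 :: List.map Nat.succ (c :: r)).take 2 ≠ [1, 0] := by simp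
    rw [if_neg h2, zero_add]
    simp only [List.map_cons, tl, List.map_map]
    rw [aux_eq, List.map_cons, List.sum_cons]
    have h3 : (List.map ((fun l => if List.take 2 l = [1, 0] then bb (occ l) k else 0) ∘ List.cons c.succ)
        (tl (List.map Nat.succ r))).sum = 0 := by
      apply List.sum_eq_zero
      intro x hx
      rw [List.mem_map] at hx
      obtain ⟨l', hl', rfl⟩ := hx
      have h4 := head_tl hl'
      simp only [Function.comp]
      rw [if_neg]
      intro h5
      cases l' with
      | nil => simp at h5
      | cons a l' =>
        simp only [List.take_succ_cons, List.take_zero, List.cons.injEq, and_true] at h5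
        rw [List.head?_cons, h5.2, List.head?_map] at h4
        cases hr : r.head? with
        | none => rw [hr] at h4; simp at h4
        | some b => rw [hr] at h4; simp at h4
    rw [h3, add_zero]
    simp only [Function.comp, List.take_succ_cons, List.take_zero, List.cons.injEq, and_true,
      List.head?_cons, Option.some.injEq, List.tail_cons, Nat.succ_eq_add_one]
    by_cases hc : c = 0
    · subst hc
      simp only [Nat.zero_add, if_true]
      rw [occ, oL_zero]
      have : oL 1 (List.map Nat.succ r) = oL 0 r := oL_shift 0 r
      rw [this]
    · have : ¬ c + 1 = 1 := by omega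
      simp only [this, hc, if_false]
  rw [h1, sum_P_succ]
  unfold g
  congr 1
  refine List.map_congr_left fun l _ => ?_
  rw [aux_eq, List.map_cons, List.sum_cons]
  have h3 : (List.map (fun l => if l.head? = some 0 then bb (oL 0 l.tail) k else 0)
      (tl (List.map Nat.succ l))).sum = 0 := by
    apply List.sum_eq_zero
    intro x hx
    rw [List.mem_map] at hx
    obtain ⟨l', hl', rfl⟩ := hx
    have h4 := head_tl hl'
    rw [h4, List.head?_map]
    cases hr : l.head? with
    | none => simp
    | some b => simp
  rw [h3, add_zero]
  simp

end Pool.Agent.Q285.Mesh132
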