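import Mathlib
import Pool.Agent.Q285.Mesh132.A
import Pool.Agent.Q285.PermEnum

/-! Closed forms of the binomial moments, and the number of lists without an occurrence. -/

set_option autoImplicit false

open Finset

namespace Pool.Agent.Q285.Mesh132

/-- closed form of `g` -/
def Gc (n k : ℕ) : ℤ := if 2 * k ≤ n then ((n - 2 * k).factorial : ℤ) * ((n - k).choose k : ℤ) else 0

/-- closed form of `f` -/
def Fc : ℕ → ℕ → ℤ
  | 0, k => if k = 0 then 1 else 0
  | n + 1, k => if 2 * k ≤ n then ((n + 1 - 2 * k).factorial : ℤ) * ((n - k).choose k : ℤ) else 0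

theorem f_zero (k : ℕ) : f 0 k = Fc 0 k := by
  rcases k with _ | k
  · simp [f, P, Fc, bb]
  · simp [f, P, Fc, bb, occ]

theorem Fc_s (n k : ℕ) : Fc (n + 1) k =
    if 2 * k ≤ n then ((n + 1 - 2 * k).factorial : ℤ) * ((n - k).choose k : ℤ) else 0 := rfl

theorem Fc_succ (n k : ℕ) : Fc (n + 1) k = Gc n k + ((n : ℤ) - k) * Fc n k := by
  rw [Fc_s, Gc]
  by_cases h : 2 * k ≤ n
  · obtain ⟨j, rfl⟩ := Nat.exists_eq_add_of_le h
    have e1 : 2 * k + j + 1 - 2 * k = j + 1 := by omega
    have e2 : 2 * k + j - k = k + j := by omega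
    have e3 : 2 * k + j - 2 * k = j := by omega
    rw [if_pos h, if_pos h, e1, e2, e3]
    rcases j with _ | j
    · rcases k with _ | k
      · simp
      · have : Fc (2 * (k + 1) + 0) (k + 1) = 0 := by
          show Fc (2 * k + 1 + 1) (k + 1) = 0
          simp only [Fc]
          rw [if_neg (by omega)]
        rw [this]
        simp
    · have e4 : Fc (2 * k + (j + 1)) k = ((j + 1).factorial : ℤ) * ((k + j).choose k : ℤ) := by
        show Fc (2 * k + j + 1) k = _
        have e5 : 2 * k + j + 1 - 2 * k = j + 1 := by omega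
        have e6 : 2 * k + j - k = k + j := by omega
        simp only [Fc]
        rw [if_pos (by omega), e5, e6]
      rw [e4]
      have e7 : (k + j + 1) * (k + j).choose k = (k + j + 1).choose k * (j + 1) := by
        have := Nat.add_one_mul_choose_eq (k + j) j
        have h1 : (k + j).choose j = (k + j).choose k := by
          rw [← Nat.choose_symm_of_eq_add]; omega
        have h2 : (k + j + 1).choose (j + 1) = (k + j + 1).choose k := by
          rw [← Nat.choose_symm_of_eq_add]; omega
        rw [h1, h2] at this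
        exact this
      have e8 : ((k : ℤ) + j + 1) * ((k + j).choose k : ℤ) = ((k + (j + 1)).choose k : ℤ) * (j + 1) := by
        exact_mod_cast e7
      rw [Nat.factorial_succ (j + 1)]
      push_cast
      linear_combination (-((j + 1).factorial : ℤ)) * e8
  · have h2 : ¬ 2 * k ≤ n := h
    rw [if_neg h2, if_neg h2]
    rcases n with _ | n
    · have : k ≠ 0 := by omega
      simp [Fc, this]
    · have h3 : ¬ 2 * k ≤ n := by omega
      rw [Fc_s, if_neg h3]
      ring

theorem Gc_zero (n : ℕ) : Gc n 0 = Fc n 0 := by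
  rcases n with _ | n <;> simp [Gc, Fc]

theorem Gc_succ_zero (k : ℕ) : Gc 0 (k + 1) = Fc 0 (k + 1) := by
  simp [Gc, Fc]

theorem Gc_succ_one (k : ℕ) : Gc 1 (k + 1) = Fc 1 (k + 1) := by
  simp [Gc, Fc]

theorem Gc_succ (n k : ℕ) : Gc (n + 2) (k + 1) = Fc (n + 2) (k + 1) + Gc n k := by
  by_cases h : 2 * k ≤ n
  · obtain ⟨j, rfl⟩ := Nat.exists_eq_add_of_le h
    have e1 : 2 * k + j + 2 - 2 * (k + 1) = j := by omega
    have e2 : 2 * k + j + 2 - (k + 1) = k + j + 1 := by omega
    have e3 : 2 * k + j - 2 * k = j := by omega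
    have e4 : 2 * k + j - k = k + j := by omega
    simp only [Gc]
    rw [if_pos (by omega), if_pos (by omega), e1, e2, e3, e4]
    rcases j with _ | j
    · have : Fc (2 * k + 0 + 2) (k + 1) = 0 := by
        show Fc (2 * k + 1 + 1) (k + 1) = 0
        simp only [Fc]
        rw [if_neg (by omega)]
      rw [this]
      simp
    · have e5 : Fc (2 * k + (j + 1) + 2) (k + 1) =
          ((j + 1).factorial : ℤ) * ((k + (j + 1)).choose (k + 1) : ℤ) := by
        show Fc (2 * k + j + 2 + 1) (k + 1) = _
        have e6 : 2 * k + j + 2 + 1 - 2 * (k + 1) = j + 1 := by omega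
        have e7 : 2 * k + j + 2 - (k + 1) = k + (j + 1) := by omega
        simp only [Fc]
        rw [if_pos (by omega), e6, e7]
      rw [e5, Nat.choose_succ_succ (k + (j + 1)) k]
      push_cast
      ring
  · have h1 : ¬ 2 * (k + 1) ≤ n + 2 := by omega
    have h2 : ¬ 2 * (k + 1) ≤ n + 1 := by omega
    simp only [Gc, if_neg h, if_neg h1, Fc, if_neg h2]
    ring

theorem closed (n : ℕ) : (∀ k, f n k = Fc n k) ∧ (∀ k, g n k = Gc n k) := by
  induction n using Nat.strong_induction_on with
  | _ n ih =>
    have hf : ∀ k, f n k = Fc n k := by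
      intro k
      rcases n with _ | n
      · exact f_zero k
      · rw [f_succ, Fc_succ, (ih n (by omega)).1 k, (ih n (by omega)).2 k]
    refine ⟨hf, fun k => ?_⟩
    rcases k with _ | k
    · rw [g_zero, Gc_zero, hf]
    · rw [g_succ, hf]
      rcases n with _ | _ | n
      · rw [h_zero, Gc_succ_zero, add_zero]
      · rw [h_one, Gc_succ_one, add_zero]
      · rw [h_succ, Gc_succ, (ih n (by omega)).2 k]

theorem oL_le (M : ℕ) (l : List ℕ) : oL M l ≤ l.length := by
  induction l generalizing M with
  | nil => simp [oL]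
  | cons c l ih =>
    have := ih (max M c)
    simp only [oL, List.length_cons]
    split_ifs <;> omega

theorem occ_le (l : List ℕ) : occ l ≤ l.length := by
  cases l with
  | nil => simp [occ]
  | cons c l =>
    have := oL_le c l
    simp only [occ, List.length_cons]
    omega

theorem alt_bb (o N : ℕ) (h : o ≤ N) : ∑ k ∈ range (N + 1), (-1 : ℤ) ^ k * bb o k = if o = 0 then 1 else 0 := by
  rw [← Int.alternating_sum_range_choose]
  symm
  apply Finset.sum_subset
  · intro x hx
    rw [Finset.mem_range] at hx ⊢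
    omega
  · intro x _ hx
    rw [Finset.mem_range] at hx
    rw [Nat.choose_eq_zero_of_lt (by omega)]
    simp

theorem sum_swap {α : Type*} (L : List α) (N : ℕ) (φ : α → ℕ → ℤ) :
    (L.map fun l => ∑ k ∈ range N, φ l k).sum = ∑ k ∈ range N, (L.map fun l => φ l k).sum := by
  induction L with
  | nil => simp
  | cons a L ih => simp only [List.map_cons, List.sum_cons, ih, Finset.sum_add_distrib]

/-- the number of lists without an occurrence -/
theorem avoid_sum (n N : ℕ) (hN : n ≤ N) : ((P n).map fun l => if occ l = 0 then (1 : ℤ) else 0).sum =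
    ∑ k ∈ range (N + 1), (-1 : ℤ) ^ k * Fc n k := by
  have h1 : ((P n).map fun l => if occ l = 0 then (1 : ℤ) else 0).sum =
      ((P n).map fun l => ∑ k ∈ range (N + 1), (-1 : ℤ) ^ k * bb (occ l) k).sum := by
    congr 1
    refine List.map_congr_left fun l hl => ?_
    rw [alt_bb]
    exact (occ_le l).trans ((length_P hl).le.trans hN)
  rw [h1, sum_swap]
  refine Finset.sum_congr rfl fun k _ => ?_
  rw [List.sum_map_mul_left, ← (closed n).1 k]
  rfl

open PermEnum in
theorem avoid_card (n N : ℕ) (hN : n ≤ N) :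
    (((Finset.univ : Finset (Equiv.Perm (Fin n))).filter (fun σ => occ (word σ) = 0)).card : ℤ) =
    ∑ k ∈ range (N + 1), (-1 : ℤ) ^ k * Fc n k := by
  rw [← avoid_sum n N hN, Finset.card_filter]
  push_cast
  exact sum_word n (fun l => if occ l = 0 then (1 : ℤ) else 0)

theorem oL_ne (M : ℕ) (l : List ℕ) : oL M l ≠ 0 ↔
    ∃ u v : List ℕ, l = u ++ (u.foldl max M + 2) :: (u.foldl max M + 1) :: v := by
  induction l generalizing M with
  | nil => simp [oL]
  | cons c l ih =>
    have h1 : oL M (c :: l) ≠ 0 ↔ (c = M + 2 ∧ l.head? = some (M + 1)) ∨ oL (max M c) l ≠ 0 := by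
      simp only [oL]
      split_ifs with h
      · simp only [h, and_self, true_or, iff_true]
        omega
      · simp only [h, false_or, zero_add]
    rw [h1, ih]
    constructor
    · rintro (⟨rfl, h⟩ | ⟨u, v, h⟩)
      · cases l with
        | nil => simp at h
        | cons a l =>
          rw [List.head?_cons, Option.some.injEq] at h
          exact ⟨[], l, by simp [h]⟩
      · refine ⟨c :: u, v, ?_⟩
        rw [List.foldl_cons]
        simpa using h
    · rintro ⟨u, v, h⟩
      cases u with
      | nil =>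
        left
        simp only [List.nil_append, List.foldl_nil, List.cons.injEq] at h
        exact ⟨h.1, by rw [h.2]; rfl⟩
      | cons a u =>
        right
        simp only [List.cons_append, List.foldl_cons, List.cons.injEq] at h
        obtain ⟨rfl, h⟩ := h
        exact ⟨u, v, h⟩

theorem foldl_max_spec (u : List ℕ) (c : ℕ) :
    u.foldl max c ∈ c :: u ∧ ∀ x ∈ c :: u, x ≤ u.foldl max c := by
  induction u generalizing c with
  | nil => simp
  | cons a u ih =>
    obtain ⟨h1, h2⟩ := ih (max c a)
    rw [List.foldl_cons]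
    constructor
    · rw [List.mem_cons] at h1
      rcases h1 with h1 | h1
      · rcases max_choice c a with h | h
        · rw [h1, h]; simp
        · rw [h1, h]; simp
      · simp [h1]
    · intro x hx
      have h3 := h2 (max c a) (by simp)
      rw [List.mem_cons, List.mem_cons] at hx
      rcases hx with rfl | rfl | hx
      · exact (le_max_left _ _).trans h3
      · exact (le_max_right _ _).trans h3
      · exact h2 x (by simp [hx])

theorem occ_ne (l : List ℕ) : occ l ≠ 0 ↔
    ∃ (u v : List ℕ) (m : ℕ), l = u ++ (m + 2) :: (m + 1) :: v ∧ m ∈ u ∧ ∀ x ∈ u, x ≤ m := by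
  cases l with
  | nil => simp [occ]
  | cons c l =>
    show oL c l ≠ 0 ↔ _
    rw [oL_ne]
    constructor
    · rintro ⟨u, v, h⟩
      obtain ⟨h1, h2⟩ := foldl_max_spec u c
      exact ⟨c :: u, v, _, by rw [List.cons_append, ← h], h1, h2⟩
    · rintro ⟨u, v, m, h, hm, hu⟩
      cases u with
      | nil => simp at hm
      | cons a u =>
        simp only [List.cons_append, List.cons.injEq] at h
        obtain ⟨rfl, h⟩ := h
        obtain ⟨h1, h2⟩ := foldl_max_spec u c
        have h3 : u.foldl max c = m := le_antisymm (hu _ h1) (h2 _ hm)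
        exact ⟨u, v, by rw [h3]; exact h⟩

open PermEnum in
/-- an occurrence in a permutation, in terms of positions -/
theorem occ_word {n : ℕ} (σ : Equiv.Perm (Fin n)) : occ (word σ) ≠ 0 ↔
    ∃ a i i' : Fin n, a < i ∧ (i' : ℕ) = i + 1 ∧ (∀ j, j < i → σ j ≤ σ a) ∧
      (σ i : ℕ) = σ a + 2 ∧ (σ i' : ℕ) = σ a + 1 := by
  have hlen : (word σ).length = n := by simp [word]
  have hget : ∀ (j : ℕ) (hj : j < (word σ).length), (word σ)[j] = σ ⟨j, hlen ▸ hj⟩ := by
    intro j hj
    simp [word]
  rw [occ_ne]
  constructor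
  · rintro ⟨u, v, m, h, hm, hu⟩
    have hl2 : u.length + (v.length + 2) = n := by
      rw [← hlen, h]; simp
    have hgu : ∀ (j : ℕ) (hj : j < u.length), u[j] = σ ⟨j, by omega⟩ := by
      intro j hj
      rw [← hget j (by omega)]
      simp only [h]
      rw [List.getElem_append_left hj]
    obtain ⟨a, ha, hma⟩ := List.getElem_of_mem hm
    refine ⟨⟨a, by omega⟩, ⟨u.length, by omega⟩, ⟨u.length + 1, by omega⟩, ?_, rfl, ?_, ?_, ?_⟩
    · exact ha
    · intro j hj
      have hj' : (j : ℕ) < u.length := hj
      rw [Fin.le_def, ← hgu a ha, hma]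
      have := hu _ (List.getElem_mem hj')
      rw [hgu j hj'] at this
      exact this
    · rw [← hgu a ha, hma, ← hget u.length (by omega)]
      simp only [h]
      rw [List.getElem_append_right (le_refl _)]
      simp
    · rw [← hgu a ha, hma, ← hget (u.length + 1) (by omega)]
      simp only [h]
      rw [List.getElem_append_right (by omega)]
      simp
  · rintro ⟨a, i, i', hai, hi', hj, h1, h2⟩
    have hin : (i : ℕ) + 1 < n := by rw [← hi']; exact i'.2
    refine ⟨(word σ).take i, (word σ).drop (i + 2), σ a, ?_, ?_, ?_⟩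
    · conv_lhs => rw [← List.take_append_drop (i : ℕ) (word σ)]
      congr 1
      rw [List.drop_eq_getElem_cons (by omega), List.drop_eq_getElem_cons (by omega), hget, hget]
      have e1 : (⟨(i : ℕ), by omega⟩ : Fin n) = i := rfl
      have e2 : (⟨(i : ℕ) + 1, hin⟩ : Fin n) = i' := Fin.ext hi'.symm
      rw [e1, e2, h1, h2]
    · rw [List.mem_take_iff_getElem]
      refine ⟨a, ?_, ?_⟩
      · rw [hlen]
        exact lt_min hai a.2
      · rw [hget]
    · intro x hx
      rw [List.mem_take_iff_getElem] at hx
      obtain ⟨j, hj', rfl⟩ := hx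
      rw [hlen] at hj'
      rw [hget]
      exact hj ⟨j, by omega⟩ (Fin.lt_def.2 (lt_of_lt_of_le hj' (min_le_left _ _)))

end Pool.Agent.Q285.Mesh132
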