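import Mathlib
import Pool.Agent.Q285.Mesh132.B

/-! Coefficients of the sum of `m! (x / (1 + x²)) ^ m`. -/

set_option autoImplicit false

open Finset PowerSeries

namespace Pool.Agent.Q285.Mesh132

/-- coefficients of `(1 + x²) ^ (-m)` -/
def sc (m n : ℕ) : ℚ :=
  if Even n then (-1) ^ (n / 2) * ((m + n / 2 - 1).choose (n / 2) : ℚ) else 0

/-- `(1 + x²) ^ (-m)` -/
noncomputable def S (m : ℕ) : ℚ⟦X⟧ := PowerSeries.mk (sc m)

theorem S_zero : S 0 = 1 := by
  ext n
  rw [S, coeff_mk, coeff_one, sc]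
  by_cases h0 : n = 0
  · subst h0; simp
  · rw [if_neg h0]
    split_ifs with h
    · obtain ⟨k, rfl⟩ := h
      have e : (k + k) / 2 = k := by omega
      rw [e, Nat.choose_eq_zero_of_lt (by omega)]
      simp
    · rfl

theorem sc_rec (m n : ℕ) : sc (m + 1) (n + 2) + sc (m + 1) n = sc m (n + 2) := by
  unfold sc
  by_cases h : Even n
  · obtain ⟨k, rfl⟩ := h
    have h2 : Even (k + k + 2) := ⟨k + 1, by ring⟩
    have h3 : Even (k + k) := ⟨k, rfl⟩
    have e1 : (k + k + 2) / 2 = k + 1 := by omega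
    have e2 : (k + k) / 2 = k := by omega
    have e3 : m + 1 + (k + 1) - 1 = m + k + 1 := by omega
    have e4 : m + 1 + k - 1 = m + k := by omega
    have e5 : m + (k + 1) - 1 = m + k := by omega
    rw [if_pos h2, if_pos h3, if_pos h2, e1, e2, e3, e4, e5, Nat.choose_succ_succ (m + k) k]
    push_cast
    ring
  · have h2 : ¬ Even (n + 2) := by
      intro h3
      apply h
      rw [Nat.even_add] at h3
      simpa using h3
    rw [if_neg h2, if_neg h, if_neg h2, add_zero]

theorem S_succ (m : ℕ) : (1 + X ^ 2) * S (m + 1) = S m := by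
  ext n
  rw [add_mul, one_mul, map_add, coeff_X_pow_mul']
  rcases n with _ | _ | n
  · simp [S, sc]
  · simp [S, sc]
  · rw [if_pos (by omega)]
    have : n + 1 + 1 - 2 = n := by omega
    rw [this]
    simp only [S, coeff_mk]
    exact sc_rec m n

theorem const_ne : (constantCoeff (1 + X ^ 2 : ℚ⟦X⟧)) ≠ 0 := by
  simp

theorem S_eq (m : ℕ) : S m = ((1 + X ^ 2 : ℚ⟦X⟧)⁻¹) ^ m := by
  induction m with
  | zero => rw [S_zero, pow_zero]
  | succ m ih =>
    rw [pow_succ', ← ih, ← S_succ m, ← mul_assoc, PowerSeries.inv_mul_cancel _ const_ne, one_mul]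

theorem coeff_term (m n : ℕ) : coeff n ((m.factorial : ℚ⟦X⟧) * (X * (1 + X ^ 2)⁻¹) ^ m) =
    if m ≤ n then (m.factorial : ℚ) * sc m (n - m) else 0 := by
  rw [mul_pow, ← S_eq]
  have h1 : (m.factorial : ℚ⟦X⟧) = C (m.factorial : ℚ) := by simp
  rw [h1, coeff_C_mul, coeff_X_pow_mul']
  split_ifs
  · rw [S, coeff_mk]
  · rw [mul_zero]

theorem rhs_sum (n N : ℕ) (h : n ≤ N) :
    coeff n (∑ m ∈ range (N + 1), (m.factorial : ℚ⟦X⟧) * (X * (1 + X ^ 2)⁻¹) ^ m) =
      ∑ k ∈ range (N + 1), (-1 : ℚ) ^ k * (Fc n k : ℚ) := by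
  rw [map_sum]
  simp only [coeff_term]
  have hL : ∑ m ∈ range (N + 1), (if m ≤ n then (m.factorial : ℚ) * sc m (n - m) else 0) =
      ∑ m ∈ (range (N + 1)).filter (fun m => m ≤ n ∧ Even (n - m)),
        (m.factorial : ℚ) * ((-1) ^ ((n - m) / 2) * ((m + (n - m) / 2 - 1).choose ((n - m) / 2) : ℚ)) := by
    rw [Finset.sum_filter]
    refine Finset.sum_congr rfl fun m _ => ?_
    by_cases h1 : m ≤ n
    · by_cases h2 : Even (n - m)
      · rw [if_pos h1, if_pos ⟨h1, h2⟩, sc, if_pos h2]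
      · rw [if_pos h1, if_neg (fun h3 => h2 h3.2), sc, if_neg h2, mul_zero]
    · rw [if_neg h1, if_neg (fun h3 => h1 h3.1)]
  have hR : ∑ k ∈ range (N + 1), (-1 : ℚ) ^ k * (Fc n k : ℚ) =
      ∑ k ∈ (range (N + 1)).filter (fun k => 2 * k ≤ n),
        ((n - 2 * k).factorial : ℚ) * ((-1) ^ k * ((n - 2 * k + k - 1).choose k : ℚ)) := by
    rw [Finset.sum_filter]
    refine Finset.sum_congr rfl fun k _ => ?_
    rcases n with _ | n
    · rcases k with _ | k
      · simp [Fc]
      · simp [Fc]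
    · rw [Fc_s]
      by_cases h1 : 2 * k ≤ n
      · have e : n + 1 - 2 * k + k - 1 = n - k := by omega
        rw [if_pos h1, if_pos (by omega), e]
        push_cast
        ring
      · rw [if_neg h1]
        by_cases h2 : 2 * k ≤ n + 1
        · rw [if_pos h2, Nat.choose_eq_zero_of_lt (by omega : n + 1 - 2 * k + k - 1 < k)]
          simp
        · rw [if_neg h2]
          simp
  rw [hL, hR]
  refine Finset.sum_nbij' (fun m => (n - m) / 2) (fun k => n - 2 * k) ?_ ?_ ?_ ?_ ?_
  · intro m hm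
    simp only [Finset.mem_filter, Finset.mem_range] at hm ⊢
    omega
  · intro k hk
    simp only [Finset.mem_filter, Finset.mem_range] at hk ⊢
    refine ⟨by omega, by omega, ?_⟩
    have : n - (n - 2 * k) = 2 * k := by omega
    rw [this]
    exact even_two_mul k
  · intro m hm
    simp only [Finset.mem_filter, Finset.mem_range] at hm
    obtain ⟨j, hj⟩ := hm.2.2
    omega
  · intro k hk
    simp only [Finset.mem_filter, Finset.mem_range] at hk
    omega
  · intro m hm
    simp only [Finset.mem_filter, Finset.mem_range] at hm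
    obtain ⟨j, hj⟩ := hm.2.2
    have e1 : n - 2 * ((n - m) / 2) = m := by omega
    rw [e1]

/-- the identity, for permutations without an occurrence of the statistic -/
theorem main_count (n N : ℕ) (h : n ≤ N) :
    (((Finset.univ : Finset (Equiv.Perm (Fin n))).filter
      (fun σ => occ (PermEnum.word σ) = 0)).card : ℚ) =
    coeff n (∑ m ∈ range (N + 1), (m.factorial : ℚ⟦X⟧) * (X * (1 + X ^ 2)⁻¹) ^ m) := by
  rw [rhs_sum n N h]
  have := avoid_card n N h
  exact_mod_cast this

end Pool.Agent.Q285.Mesh132
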